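import Mathlib

/-!
# MP_ff3c98_co: the cost number is bounded in terms of the determining number
-/

set_option autoImplicit false

namespace Pool.Agent.Results.MP_ff3c98_co.CostBounded

open Finset
open scoped Classical

section Counting

variable {ι P : Type} [Fintype ι] [DecidableEq ι] [Fintype P]

theorem piBound (D : Finset ι) (A : Finset P) (r : ℝ)
    (hA : (A.card : ℝ) ≤ r * Fintype.card P) :
    ((univ.filter (fun q : ι → P => ∀ j ∈ D, q j ∈ A)).card : ℝ) ≤
      r ^ D.card * (Fintype.card P : ℝ) ^ Fintype.card ι := by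
  have h1 : (univ.filter (fun q : ι → P => ∀ j ∈ D, q j ∈ A)) =
      Fintype.piFinset (fun j => if j ∈ D then A else univ) := by
    ext q
    simp only [mem_filter, mem_univ, true_and, Fintype.mem_piFinset]
    constructor
    · intro h j
      split_ifs with hj
      · exact h j hj
      · exact mem_univ _
    · intro h j hj
      have := h j
      rwa [if_pos hj] at this
  rw [h1, Fintype.card_piFinset]
  push_cast
  have h2 : ∀ j : ι, (((if j ∈ D then A else univ : Finset P).card : ℕ) : ℝ) ≤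
      (if j ∈ D then r else 1) * (Fintype.card P : ℝ) := by
    intro j
    split_ifs
    · exact hA
    · simp
  calc ∏ j : ι, (((if j ∈ D then A else univ : Finset P).card : ℕ) : ℝ)
      ≤ ∏ j : ι, ((if j ∈ D then r else 1) * (Fintype.card P : ℝ)) :=
        Finset.prod_le_prod (fun _ _ => Nat.cast_nonneg _) (fun j _ => h2 j)
    _ = r ^ D.card * (Fintype.card P : ℝ) ^ Fintype.card ι := by
        rw [Finset.prod_mul_distrib, Finset.prod_ite_mem, Finset.univ_inter, prod_const,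
          prod_const, Finset.card_univ]

omit [Fintype ι] [Fintype P] in
theorem pw_pw (D : Finset ι) (a b : ι → P) :
    D.piecewise (D.piecewise a b) (D.piecewise b a) = a := by
  ext j
  by_cases hj : j ∈ D
  · simp [Finset.piecewise, hj]
  · simp [Finset.piecewise, hj]

theorem overrideBound [Nonempty P] (D : Finset ι) (B : Finset (ι → P)) (c : ℝ)
    (h : ∀ ω : ι → P,
      ((univ.filter (fun q : ι → P => D.piecewise q ω ∈ B)).card : ℝ) ≤ c) :
    (B.card : ℝ) ≤ c := by
  set X : Finset ((ι → P) × (ι → P)) := univ.filter (fun p => D.piecewise p.2 p.1 ∈ B) with hX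
  have h1 : X.card = (B ×ˢ (univ : Finset (ι → P))).card := by
    refine Finset.card_bij' (fun p _ => (D.piecewise p.2 p.1, D.piecewise p.1 p.2))
      (fun p _ => (D.piecewise p.2 p.1, D.piecewise p.1 p.2)) ?_ ?_ ?_ ?_
    · intro p hp
      rw [hX, mem_filter] at hp
      rw [mem_product]
      exact ⟨hp.2, mem_univ _⟩
    · intro p hp
      rw [mem_product] at hp
      rw [hX, mem_filter]
      refine ⟨mem_univ _, ?_⟩
      rw [pw_pw]
      exact hp.1
    · intro p _
      simp only [pw_pw]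
    · intro p _
      simp only [pw_pw]
  have h2 : X.card = ∑ ω : ι → P, (univ.filter (fun q : ι → P => D.piecewise q ω ∈ B)).card := by
    rw [hX, Finset.card_filter, Fintype.sum_prod_type]
    refine Finset.sum_congr rfl fun ω _ => ?_
    rw [Finset.card_filter]
  have h3 : (X.card : ℝ) ≤ Fintype.card (ι → P) * c := by
    rw [h2]
    push_cast
    calc ∑ ω : ι → P, ((univ.filter (fun q : ι → P => D.piecewise q ω ∈ B)).card : ℝ)
        ≤ ∑ _ω : ι → P, c := Finset.sum_le_sum fun ω _ => h ω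
      _ = Fintype.card (ι → P) * c := by
          rw [Finset.sum_const, Finset.card_univ, nsmul_eq_mul]
  rw [h1, Finset.card_product, Finset.card_univ] at h3
  push_cast at h3
  have h4 : (0 : ℝ) < Fintype.card (ι → P) := by
    exact_mod_cast Fintype.card_pos
  have h5 : (Fintype.card (ι → P) : ℝ) * B.card ≤ Fintype.card (ι → P) * c := by
    rw [mul_comm]
    simpa using h3
  exact le_of_mul_le_mul_left h5 h4

theorem keyBound [Nonempty P] {Γ : Type} (D : Finset ι) (B : Finset (ι → P)) (L : ℕ) (r : ℝ)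
    (hr : 0 ≤ r) (G : (ι → P) → Finset Γ) (A : (ι → P) → Γ → Finset P)
    (hG : ∀ ω, (G ω).card ≤ L)
    (hA : ∀ ω, ∀ g ∈ G ω, ((A ω g).card : ℝ) ≤ r * Fintype.card P)
    (h : ∀ ω q, D.piecewise q ω ∈ B → ∃ g ∈ G ω, ∀ j ∈ D, q j ∈ A ω g) :
    (B.card : ℝ) ≤ L * (r ^ D.card * (Fintype.card P : ℝ) ^ Fintype.card ι) := by
  refine overrideBound D B _ fun ω => ?_
  have hsub : (univ.filter (fun q : ι → P => D.piecewise q ω ∈ B)) ⊆
      (G ω).biUnion (fun g => univ.filter (fun q : ι → P => ∀ j ∈ D, q j ∈ A ω g)) := by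
    intro q hq
    rw [mem_filter] at hq
    obtain ⟨g, hg, hj⟩ := h ω q hq.2
    rw [mem_biUnion]
    exact ⟨g, hg, mem_filter.2 ⟨mem_univ _, hj⟩⟩
  have hc : 0 ≤ r ^ D.card * (Fintype.card P : ℝ) ^ Fintype.card ι := by positivity
  calc ((univ.filter (fun q : ι → P => D.piecewise q ω ∈ B)).card : ℝ)
      ≤ (((G ω).biUnion
          (fun g => univ.filter (fun q : ι → P => ∀ j ∈ D, q j ∈ A ω g))).card : ℝ) := by
        exact_mod_cast Finset.card_le_card hsub
    _ ≤ ∑ g ∈ G ω, ((univ.filter (fun q : ι → P => ∀ j ∈ D, q j ∈ A ω g)).card : ℝ) := by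
        exact_mod_cast Finset.card_biUnion_le
    _ ≤ ∑ _g ∈ G ω, r ^ D.card * (Fintype.card P : ℝ) ^ Fintype.card ι :=
        Finset.sum_le_sum fun g hg => piBound D _ r (hA ω g hg)
    _ = (G ω).card * (r ^ D.card * (Fintype.card P : ℝ) ^ Fintype.card ι) := by
        rw [Finset.sum_const, nsmul_eq_mul]
    _ ≤ L * (r ^ D.card * (Fintype.card P : ℝ) ^ Fintype.card ι) := by
        apply mul_le_mul_of_nonneg_right _ hc
        exact_mod_cast hG ω

end Counting

section Action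

variable {Γ V : Type} [Group Γ] [Fintype Γ] [MulAction Γ V]

/-- the orbit of `b`, as a finite set -/
noncomputable def orb (Γ : Type) {V : Type} [Group Γ] [Fintype Γ] [MulAction Γ V] (b : V) :
    Finset V := univ.image (fun γ : Γ => γ • b)

/-- the elements of the group which fix `B` pointwise -/
noncomputable def fixer (Γ : Type) {V : Type} [Group Γ] [Fintype Γ] [MulAction Γ V]
    (B : Finset V) : Finset Γ := univ.filter (fun g : Γ => ∀ b ∈ B, g • b = b)

theorem fibre_mul_orb (b y : V) :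
    (univ.filter (fun γ : Γ => γ • b = y)).card * (orb Γ b).card ≤ Fintype.card Γ := by
  by_cases hy : ∃ γ₀ : Γ, γ₀ • b = y
  · obtain ⟨γ₀, h0⟩ := hy
    have h1 : Fintype.card Γ =
        ∑ y' ∈ orb Γ b, (univ.filter (fun γ : Γ => γ • b = y')).card := by
      rw [← Finset.card_univ]
      exact Finset.card_eq_sum_card_fiberwise fun γ _ =>
        mem_image.2 ⟨γ, mem_univ _, rfl⟩
    rw [h1, mul_comm]
    rw [← smul_eq_mul]
    refine Finset.card_nsmul_le_sum _ _ _ fun y' hy' => ?_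
    obtain ⟨γ₁, -, h1'⟩ := mem_image.1 hy'
    refine Finset.card_le_card_of_injOn (fun γ => γ₁ * γ₀⁻¹ * γ) ?_ ?_
    · intro γ hγ
      have h2 : γ • b = y := (mem_filter.1 hγ).2
      refine mem_coe.2 (mem_filter.2 ⟨mem_univ _, ?_⟩)
      show (γ₁ * γ₀⁻¹ * γ) • b = y'
      rw [mul_smul, mul_smul, h2, ← h0, inv_smul_smul]
      exact h1'
    · intro a _ a' _ h
      exact mul_left_cancel h
  · have : univ.filter (fun γ : Γ => γ • b = y) = ∅ := by
      rw [Finset.filter_eq_empty_iff]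
      intro γ _ h
      exact hy ⟨γ, h⟩
    rw [this]
    simp

/-- the point of `V` given by a pair -/
def pt {B : Finset V} (p : Γ × {x // x ∈ B}) : V := p.1 • (p.2 : V)

theorem pt_fibre (B : Finset V) (M : ℕ) (hM : 0 < M) (horb : ∀ b ∈ B, M ≤ (orb Γ b).card) (y : V) :
    ((univ.filter (fun p : Γ × {x // x ∈ B} => pt p = y)).card : ℝ) ≤
      1 / M * Fintype.card (Γ × {x // x ∈ B}) := by
  have h1 : (univ.filter (fun p : Γ × {x // x ∈ B} => pt p = y)).card =
      ∑ b : {x // x ∈ B}, (univ.filter (fun γ : Γ => γ • (b : V) = y)).card := by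
    rw [Finset.card_filter, Fintype.sum_prod_type_right]
    refine Finset.sum_congr rfl fun b _ => ?_
    rw [Finset.card_filter]
    rfl
  have h2 : (univ.filter (fun p : Γ × {x // x ∈ B} => pt p = y)).card * M ≤
      Fintype.card (Γ × {x // x ∈ B}) := by
    rw [h1, Finset.sum_mul, Fintype.card_prod]
    calc ∑ b : {x // x ∈ B}, (univ.filter (fun γ : Γ => γ • (b : V) = y)).card * M
        ≤ ∑ _b : {x // x ∈ B}, Fintype.card Γ := by
          refine Finset.sum_le_sum fun b _ => ?_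
          exact (Nat.mul_le_mul_left _ (horb b b.2)).trans (fibre_mul_orb _ _)
      _ = Fintype.card Γ * Fintype.card {x // x ∈ B} := by
          rw [Finset.sum_const, Finset.card_univ, smul_eq_mul, mul_comm]
  have hM' : (0 : ℝ) < M := by exact_mod_cast hM
  rw [div_mul_eq_mul_div, one_mul, le_div_iff₀ hM']
  exact_mod_cast h2

/-- an element that does not fix `B` moves many points -/
theorem moved (B : Finset V) (L : ℕ) (hL : (fixer Γ B).card ≤ L) (g : Γ) (hg : g ∉ fixer Γ B) :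
    Fintype.card Γ ≤ L * (univ.filter (fun p : Γ × {x // x ∈ B} => g • pt p ≠ pt p)).card := by
  set Z : Finset Γ := univ.filter (fun z : Γ => z⁻¹ * g * z = g) with hZ
  set A : Finset Γ := univ.filter (fun γ : Γ => γ⁻¹ * g * γ ∈ fixer Γ B) with hA
  set A' : Finset Γ := univ.filter (fun γ : Γ => ¬ γ⁻¹ * g * γ ∈ fixer Γ B) with hA'
  have hone : (1 : Γ) ∈ fixer Γ B := mem_filter.2 ⟨mem_univ _, fun b _ => one_smul _ _⟩
  have hsum : A.card + A'.card = Fintype.card Γ := by
    rw [hA, hA', Finset.card_filter_add_card_filter_not]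
    exact Finset.card_univ
  have hZA : Z.card ≤ A'.card := by
    refine Finset.card_le_card fun z hz => ?_
    rw [hZ, mem_filter] at hz
    rw [hA', mem_filter]
    refine ⟨mem_univ _, ?_⟩
    rw [hz.2]
    exact hg
  have hAZ : A.card ≤ Z.card * ((fixer Γ B).erase 1).card := by
    refine Finset.card_le_mul_card_image_of_maps_to (f := fun γ : Γ => γ⁻¹ * g * γ) ?_ _ ?_
    · intro γ hγ
      rw [hA, mem_filter] at hγ
      rw [mem_erase]
      refine ⟨fun h => hg ?_, hγ.2⟩
      have : g = 1 := by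
        have h2 : γ * (γ⁻¹ * g * γ) * γ⁻¹ = g := by group
        rw [h] at h2
        rw [← h2]
        group
      rw [this]
      exact hone
    · intro h _
      by_cases hne : ∃ γ₀, γ₀ ∈ A.filter (fun γ : Γ => γ⁻¹ * g * γ = h)
      · obtain ⟨γ₀, hγ₀⟩ := hne
        have h0 : γ₀⁻¹ * g * γ₀ = h := (mem_filter.1 hγ₀).2
        refine Finset.card_le_card_of_injOn (fun γ => γ * γ₀⁻¹) ?_ ?_
        · intro γ hγ
          have h1 : γ⁻¹ * g * γ = h := (mem_filter.1 hγ).2
          refine mem_coe.2 (mem_filter.2 ⟨mem_univ _, ?_⟩)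
          show (γ * γ₀⁻¹)⁻¹ * g * (γ * γ₀⁻¹) = g
          have h2 : (γ * γ₀⁻¹)⁻¹ * g * (γ * γ₀⁻¹) = γ₀ * (γ⁻¹ * g * γ) * γ₀⁻¹ := by group
          rw [h2, h1, ← h0]
          group
        · intro a _ a' _ h
          exact mul_right_cancel h
      · push Not at hne
        have : A.filter (fun γ : Γ => γ⁻¹ * g * γ = h) = ∅ :=
          Finset.eq_empty_of_forall_notMem hne
        rw [this]
        simp
  have hmoved : A'.card ≤
      (univ.filter (fun p : Γ × {x // x ∈ B} => g • pt p ≠ pt p)).card := by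
    have hch : ∀ γ : Γ, γ ∈ A' → ∃ b : {x // x ∈ B}, g • γ • (b : V) ≠ γ • (b : V) := by
      intro γ hγ
      rw [hA', mem_filter] at hγ
      by_contra hcon
      push Not at hcon
      refine hγ.2 (mem_filter.2 ⟨mem_univ _, fun b hb => ?_⟩)
      rw [mul_smul, mul_smul, hcon ⟨b, hb⟩, inv_smul_smul]
    rcases A'.eq_empty_or_nonempty with he | ⟨γ₁, hγ₁⟩
    · rw [he]
      simp
    obtain ⟨b₀, -⟩ := hch γ₁ hγ₁
    have : Nonempty {x // x ∈ B} := ⟨b₀⟩
    choose! f hf using hch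
    refine Finset.card_le_card_of_injOn (fun γ => (γ, f γ)) ?_ ?_
    · intro γ hγ
      exact mem_coe.2 (mem_filter.2 ⟨mem_univ _, hf γ hγ⟩)
    · intro a _ a' _ h
      exact (Prod.mk.inj h).1
  have hcard : ((fixer Γ B).erase 1).card + 1 ≤ L := by
    rw [Finset.card_erase_add_one hone]
    exact hL
  calc Fintype.card Γ = A.card + A'.card := hsum.symm
    _ ≤ A'.card * ((fixer Γ B).erase 1).card + A'.card :=
        Nat.add_le_add_right (hAZ.trans (Nat.mul_le_mul_right _ hZA)) _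
    _ = (((fixer Γ B).erase 1).card + 1) * A'.card := by ring
    _ ≤ L * (univ.filter (fun p : Γ × {x // x ∈ B} => g • pt p ≠ pt p)).card :=
        Nat.mul_le_mul hcard hmoved

/-- the proportion of fixed points of an element that does not fix `B` -/
theorem fixed_le (B : Finset V) (d L : ℕ) (hd : B.card ≤ d) (hd0 : 0 < d) (hL0 : 0 < L)
    (hL : (fixer Γ B).card ≤ L) (g : Γ) (hg : g ∉ fixer Γ B) :
    ((univ.filter (fun p : Γ × {x // x ∈ B} => g • pt p = pt p)).card : ℝ) ≤
      (1 - 1 / (L * d)) * Fintype.card (Γ × {x // x ∈ B}) := by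
  have h1 := moved B L hL g hg
  have h2 : (univ.filter (fun p : Γ × {x // x ∈ B} => g • pt p = pt p)).card +
      (univ.filter (fun p : Γ × {x // x ∈ B} => g • pt p ≠ pt p)).card =
      Fintype.card (Γ × {x // x ∈ B}) := by
    rw [Finset.card_filter_add_card_filter_not]
    exact Finset.card_univ
  have h3 : Fintype.card (Γ × {x // x ∈ B}) ≤
      (L * d) * (univ.filter (fun p : Γ × {x // x ∈ B} => g • pt p ≠ pt p)).card := by
    rw [Fintype.card_prod, Fintype.card_coe]
    calc Fintype.card Γ * B.card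
        ≤ (L * (univ.filter (fun p : Γ × {x // x ∈ B} => g • pt p ≠ pt p)).card) * d :=
          Nat.mul_le_mul h1 hd
      _ = _ := by ring
  have hpos : (0 : ℝ) < L * d := by positivity
  have h3' : (Fintype.card (Γ × {x // x ∈ B}) : ℝ) ≤
      (L * d) * (univ.filter (fun p : Γ × {x // x ∈ B} => g • pt p ≠ pt p)).card := by
    exact_mod_cast h3
  have h2' : ((univ.filter (fun p : Γ × {x // x ∈ B} => g • pt p = pt p)).card : ℝ) +
      (univ.filter (fun p : Γ × {x // x ∈ B} => g • pt p ≠ pt p)).card =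
      Fintype.card (Γ × {x // x ∈ B}) := by
    exact_mod_cast h2
  have h4 : 1 / (L * d : ℝ) * Fintype.card (Γ × {x // x ∈ B}) ≤
      (univ.filter (fun p : Γ × {x // x ∈ B} => g • pt p ≠ pt p)).card := by
    rw [div_mul_eq_mul_div, one_mul, div_le_iff₀ hpos, mul_comm]
    exact h3'
  linarith

/-- few elements have prescribed images of the points of `B` -/
theorem coset_le (B : Finset V) (L : ℕ) (hL : (fixer Γ B).card ≤ L) (f : {x // x ∈ B} → V) :
    (univ.filter (fun g : Γ => ∀ b : {x // x ∈ B}, g • (b : V) = f b)).card ≤ L := by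
  refine le_trans ?_ hL
  by_cases hne : ∃ g₀ : Γ, ∀ b : {x // x ∈ B}, g₀ • (b : V) = f b
  · obtain ⟨g₀, h0⟩ := hne
    refine Finset.card_le_card_of_injOn (fun g => g₀⁻¹ * g) ?_ ?_
    · intro g hg
      have h1 := (mem_filter.1 hg).2
      refine mem_coe.2 (mem_filter.2 ⟨mem_univ _, fun b hb => ?_⟩)
      show (g₀⁻¹ * g) • b = b
      have h2 := h1 ⟨b, hb⟩
      have h3 := h0 ⟨b, hb⟩
      simp only at h2 h3
      rw [mul_smul, h2, ← h3, inv_smul_smul]
    · intro a _ a' _ h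
      exact mul_left_cancel h
  · have : univ.filter (fun g : Γ => ∀ b : {x // x ∈ B}, g • (b : V) = f b) = ∅ := by
      rw [Finset.filter_eq_empty_iff]
      intro g _ h
      exact hne ⟨g, h⟩
    rw [this]
    simp

/-- the point with a given index: a point of `T` or one of the random points -/
def val {B T : Finset V} {k : ℕ} (ω : Fin k → Γ × {x // x ∈ B}) : {x // x ∈ T} ⊕ Fin k → V
  | Sum.inl x => x
  | Sum.inr j => pt (ω j)

omit [Fintype Γ] in
theorem val_pw {B T : Finset V} {k : ℕ} (D : Finset (Fin k)) (q ω : Fin k → Γ × {x // x ∈ B})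
    (i : {x // x ∈ T} ⊕ Fin k) (h : ∀ j ∈ D, i ≠ Sum.inr j) :
    val (D.piecewise q ω) i = val ω i := by
  rcases i with x | j
  · rfl
  · show pt (D.piecewise q ω j) = pt (ω j)
    rw [Finset.piecewise_eq_of_notMem]
    intro hj
    exact h j hj rfl

section events

variable (B T : Finset V) (k : ℕ)

/-- a random point hits a critical point -/
noncomputable def E1 (w : Γ → V) (j : Fin k) : Finset (Fin k → Γ × {x // x ∈ B}) :=
  univ.filter (fun ω => ∃ g ∈ fixer Γ B, g ≠ 1 ∧ pt (ω j) = g • w g)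

/-- a random point is mapped to another point -/
noncomputable def E2 (σ : {x // x ∈ B} → {x // x ∈ T} ⊕ Fin k) (j : Fin k)
    (τ : {x // x ∈ T} ⊕ Fin k) : Finset (Fin k → Γ × {x // x ∈ B}) :=
  univ.filter (fun ω => (∀ b, σ b ≠ Sum.inr j) ∧ τ ≠ Sum.inr j ∧
    ∃ g : Γ, (∀ b : {x // x ∈ B}, g • (b : V) = val ω (σ b)) ∧ g • pt (ω j) = val ω τ)

/-- all other random points are fixed -/
noncomputable def E3 (σ : {x // x ∈ B} → {x // x ∈ T} ⊕ Fin k) :
    Finset (Fin k → Γ × {x // x ∈ B}) :=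
  univ.filter (fun ω => ∃ g : Γ, g ∉ fixer Γ B ∧ (∀ b : {x // x ∈ B}, g • (b : V) = val ω (σ b)) ∧
    ∀ j, (∀ b, σ b ≠ Sum.inr j) → g • pt (ω j) = pt (ω j))

variable {B T k}

theorem E1_le (L M : ℕ) (hne : B.Nonempty) (hM : 0 < M) (hL : (fixer Γ B).card ≤ L)
    (horb : ∀ b ∈ B, M ≤ (orb Γ b).card) (w : Γ → V) (j : Fin k) :
    ((E1 B k w j).card : ℝ) ≤
      L * (1 / M) * (Fintype.card (Γ × {x // x ∈ B}) : ℝ) ^ k := by
  have : Nonempty {x // x ∈ B} := hne.to_subtype
  have h := keyBound (ι := Fin k) (P := Γ × {x // x ∈ B}) (Γ := Γ) {j} (E1 B k w j) L (1 / M)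
    (by positivity) (fun _ => fixer Γ B) (fun _ g => univ.filter (fun p => pt p = g • w g))
    (fun _ => hL) (fun _ g _ => pt_fibre B M hM horb _) ?_
  · rw [card_singleton, pow_one, Fintype.card_fin, ← mul_assoc] at h
    exact h
  · intro ω q hq
    obtain ⟨g, hg, -, h2⟩ := (mem_filter.1 hq).2
    refine ⟨g, hg, fun j' hj' => ?_⟩
    rw [mem_singleton] at hj'
    subst hj'
    refine mem_filter.2 ⟨mem_univ _, ?_⟩
    rw [Finset.piecewise_eq_of_mem _ _ _ (mem_singleton_self _)] at h2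
    exact h2

theorem E2_le (L M : ℕ) (hne : B.Nonempty) (hM : 0 < M) (hL : (fixer Γ B).card ≤ L)
    (horb : ∀ b ∈ B, M ≤ (orb Γ b).card) (σ : {x // x ∈ B} → {x // x ∈ T} ⊕ Fin k) (j : Fin k)
    (τ : {x // x ∈ T} ⊕ Fin k) :
    ((E2 (Γ := Γ) B T k σ j τ).card : ℝ) ≤
      L * (1 / M) * (Fintype.card (Γ × {x // x ∈ B}) : ℝ) ^ k := by
  have : Nonempty {x // x ∈ B} := hne.to_subtype
  have h := keyBound (ι := Fin k) (P := Γ × {x // x ∈ B}) (Γ := Γ) {j} (E2 B T k σ j τ) L (1 / M)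
    (by positivity) (fun ω => univ.filter (fun g : Γ => ∀ b : {x // x ∈ B}, g • (b : V) = val ω (σ b)))
    (fun ω g => univ.filter (fun p => pt p = g⁻¹ • val ω τ))
    (fun ω => coset_le B L hL _) (fun _ g _ => pt_fibre B M hM horb _) ?_
  · rw [card_singleton, pow_one, Fintype.card_fin, ← mul_assoc] at h
    exact h
  · intro ω q hq
    obtain ⟨h1, h2, g, hg, h3⟩ := (mem_filter.1 hq).2
    have e1 : ∀ b, val (T := T) (Finset.piecewise {j} q ω) (σ b) = val ω (σ b) := fun b =>
      val_pw _ _ _ _ fun j' hj' => by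
        rw [mem_singleton] at hj'
        subst hj'
        exact h1 b
    have e2 : val (T := T) (Finset.piecewise {j} q ω) τ = val ω τ :=
      val_pw _ _ _ _ fun j' hj' => by
        rw [mem_singleton] at hj'
        subst hj'
        exact h2
    refine ⟨g, mem_filter.2 ⟨mem_univ _, fun b => by rw [hg b, e1 b]⟩, fun j' hj' => ?_⟩
    rw [mem_singleton] at hj'
    subst hj'
    refine mem_filter.2 ⟨mem_univ _, ?_⟩
    rw [Finset.piecewise_eq_of_mem _ _ _ (mem_singleton_self _), e2] at h3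
    rw [← h3, inv_smul_smul]

theorem E3_le (d L : ℕ) (hne : B.Nonempty) (hd : B.card ≤ d) (hd0 : 0 < d) (hL0 : 0 < L)
    (hL : (fixer Γ B).card ≤ L) (σ : {x // x ∈ B} → {x // x ∈ T} ⊕ Fin k) :
    ((E3 (Γ := Γ) B T k σ).card : ℝ) ≤
      L * (1 - 1 / (L * d)) ^ (k - d) * (Fintype.card (Γ × {x // x ∈ B}) : ℝ) ^ k := by
  have : Nonempty {x // x ∈ B} := hne.to_subtype
  have hLd : (1 : ℝ) ≤ L * d := by
    have : 1 ≤ L * d := Nat.mul_pos hL0 hd0
    exact_mod_cast this
  have hr0 : (0 : ℝ) ≤ 1 - 1 / (L * d) := by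
    rw [sub_nonneg, div_le_one (by linarith)]
    exact hLd
  have hr1 : (1 : ℝ) - 1 / (L * d) ≤ 1 := by
    have : (0 : ℝ) ≤ 1 / (L * d) := by positivity
    linarith
  set D : Finset (Fin k) := univ.filter (fun j => ∀ b, σ b ≠ Sum.inr j) with hD
  have hDc : k - d ≤ D.card := by
    have h1 : D.card + (univ.filter (fun j : Fin k => ¬ ∀ b, σ b ≠ Sum.inr j)).card = k := by
      rw [hD, Finset.card_filter_add_card_filter_not, Finset.card_univ, Fintype.card_fin]
    have h2 : (univ.filter (fun j : Fin k => ¬ ∀ b, σ b ≠ Sum.inr j)).card ≤ B.card := by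
      have h3 : ((univ.filter (fun j : Fin k => ¬ ∀ b, σ b ≠ Sum.inr j)).image
          (fun j => (Sum.inr j : {x // x ∈ T} ⊕ Fin k))).card ≤
          (univ.image σ).card := by
        refine Finset.card_le_card fun i hi => ?_
        obtain ⟨j, hj, rfl⟩ := mem_image.1 hi
        have := (mem_filter.1 hj).2
        push Not at this
        obtain ⟨b, hb⟩ := this
        exact mem_image.2 ⟨b, mem_univ _, hb⟩
      rw [Finset.card_image_of_injective _ Sum.inr_injective] at h3
      refine h3.trans (Finset.card_image_le.trans ?_)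
      rw [Finset.card_univ, Fintype.card_coe]
    omega
  have h := keyBound (ι := Fin k) (P := Γ × {x // x ∈ B}) (Γ := Γ) D (E3 B T k σ) L
    (1 - 1 / (L * d)) hr0
    (fun ω => univ.filter (fun g : Γ => g ∉ fixer Γ B ∧ ∀ b : {x // x ∈ B}, g • (b : V) = val ω (σ b)))
    (fun ω g => univ.filter (fun p => g • pt p = pt p))
    (fun ω => le_trans (Finset.card_le_card fun g hg => by
      rw [mem_filter] at hg ⊢
      exact ⟨hg.1, hg.2.2⟩) (coset_le B L hL (fun b => val ω (σ b))))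
    (fun ω g hg => fixed_le B d L hd hd0 hL0 hL g (mem_filter.1 hg).2.1) ?_
  · rw [Fintype.card_fin] at h
    refine h.trans ?_
    rw [← mul_assoc]
    apply mul_le_mul_of_nonneg_right _ (by positivity)
    apply mul_le_mul_of_nonneg_left _ (by positivity)
    exact pow_le_pow_of_le_one hr0 hr1 hDc
  · intro ω q hq
    obtain ⟨g, h0, h1, h2⟩ := (mem_filter.1 hq).2
    have e1 : ∀ b, val (T := T) (Finset.piecewise D q ω) (σ b) = val ω (σ b) := fun b =>
      val_pw _ _ _ _ fun j' hj' => (mem_filter.1 hj').2 b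
    refine ⟨g, mem_filter.2 ⟨mem_univ _, h0, fun b => by rw [h1 b, e1 b]⟩, fun j hj => ?_⟩
    refine mem_filter.2 ⟨mem_univ _, ?_⟩
    have h3 := h2 j (mem_filter.1 hj).2
    rw [Finset.piecewise_eq_of_mem _ _ _ hj] at h3
    exact h3

end events

theorem main_action (d L k M : ℕ) (B W S₀ : Finset V) (w : Γ → V)
    (hne : B.Nonempty) (hB : B.card ≤ d) (hd0 : 0 < d) (hL0 : 0 < L) (hM : 0 < M)
    (hL : (fixer Γ B).card ≤ L) (hW : W.card ≤ L) (hWS : W ⊆ S₀)
    (hw : ∀ g ∈ fixer Γ B, g ≠ 1 → w g ∈ W ∧ g • w g ∉ S₀)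
    (horb : ∀ b ∈ B, M ≤ (orb Γ b).card)
    (hconst : (k : ℝ) * (L * (1 / M)) +
      ((L + d + k : ℕ) : ℝ) ^ d * (k * ((L + d + k : ℕ) : ℝ)) * (L * (1 / M)) +
      ((L + d + k : ℕ) : ℝ) ^ d * (L * (1 - 1 / (L * d)) ^ (k - d)) < 1) :
    ∃ S : Finset V, S.card ≤ L + d + k ∧ ∀ g : Γ, g ≠ 1 → ∃ x ∈ S, g • x ∉ S := by
  have : Nonempty {x // x ∈ B} := hne.to_subtype
  set N : ℝ := (Fintype.card (Γ × {x // x ∈ B}) : ℝ) with hN
  have hN0 : 0 < N := by
    rw [hN]
    exact_mod_cast Fintype.card_pos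
  set T : Finset V := W ∪ B with hT
  have hTc : T.card ≤ L + d := (card_union_le _ _).trans (Nat.add_le_add hW hB)
  have hLd : (1 : ℝ) ≤ L * d := by
    have : 1 ≤ L * d := Nat.mul_pos hL0 hd0
    exact_mod_cast this
  have hr0 : (0 : ℝ) ≤ 1 - 1 / (L * d) := by
    rw [sub_nonneg, div_le_one (by linarith)]
    exact hLd
  have hIdx : (Fintype.card ({x // x ∈ T} ⊕ Fin k) : ℝ) ≤ ((L + d + k : ℕ) : ℝ) := by
    rw [Fintype.card_sum, Fintype.card_coe, Fintype.card_fin]
    exact_mod_cast Nat.add_le_add_right hTc k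
  have hK1 : (1 : ℝ) ≤ ((L + d + k : ℕ) : ℝ) := by
    have : 1 ≤ L + d + k := by omega
    exact_mod_cast this
  have hσ : (Fintype.card ({x // x ∈ B} → {x // x ∈ T} ⊕ Fin k) : ℝ) ≤
      ((L + d + k : ℕ) : ℝ) ^ d := by
    rw [Fintype.card_fun, Fintype.card_coe]
    push_cast
    calc (Fintype.card ({x // x ∈ T} ⊕ Fin k) : ℝ) ^ B.card
        ≤ ((L + d + k : ℕ) : ℝ) ^ B.card := pow_le_pow_left₀ (by positivity) hIdx _
      _ ≤ ((L + d + k : ℕ) : ℝ) ^ d := pow_le_pow_right₀ hK1 hB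
      _ = _ := by push_cast; rfl
  -- the union of the bad events
  set U1 : Finset (Fin k → Γ × {x // x ∈ B}) := univ.biUnion (fun j : Fin k => E1 B k w j)
  set U2 : Finset (Fin k → Γ × {x // x ∈ B}) :=
    (univ : Finset (({x // x ∈ B} → {x // x ∈ T} ⊕ Fin k) × Fin k × ({x // x ∈ T} ⊕ Fin k))).biUnion
      (fun p => E2 B T k p.1 p.2.1 p.2.2)
  set U3 : Finset (Fin k → Γ × {x // x ∈ B}) :=
    (univ : Finset ({x // x ∈ B} → {x // x ∈ T} ⊕ Fin k)).biUnion (fun σ => E3 B T k σ)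
  have b1 : (U1.card : ℝ) ≤ (k : ℝ) * (L * (1 / M)) * N ^ k := by
    calc (U1.card : ℝ) ≤ ∑ j : Fin k, ((E1 B k w j).card : ℝ) := by
          exact_mod_cast Finset.card_biUnion_le
      _ ≤ ∑ _j : Fin k, (L : ℝ) * (1 / M) * N ^ k :=
          Finset.sum_le_sum fun j _ => E1_le L M hne hM hL horb w j
      _ = _ := by
          rw [Finset.sum_const, Finset.card_univ, Fintype.card_fin, nsmul_eq_mul]
          ring
  have b2 : (U2.card : ℝ) ≤
      ((L + d + k : ℕ) : ℝ) ^ d * (k * ((L + d + k : ℕ) : ℝ)) * (L * (1 / M)) * N ^ k := by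
    calc (U2.card : ℝ) ≤ ∑ p : (({x // x ∈ B} → {x // x ∈ T} ⊕ Fin k) × Fin k ×
          ({x // x ∈ T} ⊕ Fin k)), ((E2 (Γ := Γ) B T k p.1 p.2.1 p.2.2).card : ℝ) := by
          exact_mod_cast Finset.card_biUnion_le
      _ ≤ ∑ _p : (({x // x ∈ B} → {x // x ∈ T} ⊕ Fin k) × Fin k ×
          ({x // x ∈ T} ⊕ Fin k)), (L : ℝ) * (1 / M) * N ^ k :=
          Finset.sum_le_sum fun p _ => E2_le L M hne hM hL horb _ _ _
      _ = (Fintype.card ({x // x ∈ B} → {x // x ∈ T} ⊕ Fin k) : ℝ) * (k *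
            (Fintype.card ({x // x ∈ T} ⊕ Fin k) : ℝ)) * (L * (1 / M) * N ^ k) := by
          rw [Finset.sum_const, Finset.card_univ, Fintype.card_prod, Fintype.card_prod,
            Fintype.card_fin, nsmul_eq_mul]
          push_cast
          ring
      _ ≤ ((L + d + k : ℕ) : ℝ) ^ d * (k * ((L + d + k : ℕ) : ℝ)) * (L * (1 / M) * N ^ k) := by
          apply mul_le_mul_of_nonneg_right _ (by positivity)
          apply mul_le_mul hσ _ (by positivity) (by positivity)
          exact mul_le_mul_of_nonneg_left hIdx (by positivity)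
      _ = _ := by ring
  have b3 : (U3.card : ℝ) ≤
      ((L + d + k : ℕ) : ℝ) ^ d * (L * (1 - 1 / (L * d)) ^ (k - d)) * N ^ k := by
    calc (U3.card : ℝ) ≤ ∑ σ : ({x // x ∈ B} → {x // x ∈ T} ⊕ Fin k),
          ((E3 (Γ := Γ) B T k σ).card : ℝ) := by
          exact_mod_cast Finset.card_biUnion_le
      _ ≤ ∑ _σ : ({x // x ∈ B} → {x // x ∈ T} ⊕ Fin k),
          (L : ℝ) * (1 - 1 / (L * d)) ^ (k - d) * N ^ k :=
          Finset.sum_le_sum fun σ _ => E3_le d L hne hB hd0 hL0 hL σ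
      _ = (Fintype.card ({x // x ∈ B} → {x // x ∈ T} ⊕ Fin k) : ℝ) *
            (L * (1 - 1 / (L * d)) ^ (k - d) * N ^ k) := by
          rw [Finset.sum_const, Finset.card_univ, nsmul_eq_mul]
      _ ≤ ((L + d + k : ℕ) : ℝ) ^ d * (L * (1 - 1 / (L * d)) ^ (k - d) * N ^ k) := by
          apply mul_le_mul_of_nonneg_right hσ
          have := pow_nonneg hr0 (k - d)
          positivity
      _ = _ := by ring
  have hlt : ((U1 ∪ U2 ∪ U3).card : ℝ) < (univ : Finset (Fin k → Γ × {x // x ∈ B})).card := by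
    have hu : ((univ : Finset (Fin k → Γ × {x // x ∈ B})).card : ℝ) = N ^ k := by
      rw [Finset.card_univ, Fintype.card_fun, Fintype.card_fin, hN]
      push_cast
      rfl
    rw [hu]
    have h1 : ((U1 ∪ U2 ∪ U3).card : ℝ) ≤ U1.card + U2.card + U3.card := by
      have h2 : (U1 ∪ U2 ∪ U3).card ≤ U1.card + U2.card + U3.card :=
        (card_union_le _ _).trans (Nat.add_le_add_right (card_union_le _ _) _)
      exact_mod_cast h2
    have hNk : 0 < N ^ k := pow_pos hN0 k
    calc ((U1 ∪ U2 ∪ U3).card : ℝ) ≤ U1.card + U2.card + U3.card := h1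
      _ ≤ ((k : ℝ) * (L * (1 / M)) +
        ((L + d + k : ℕ) : ℝ) ^ d * (k * ((L + d + k : ℕ) : ℝ)) * (L * (1 / M)) +
        ((L + d + k : ℕ) : ℝ) ^ d * (L * (1 - 1 / (L * d)) ^ (k - d))) * N ^ k := by
          linarith
      _ < 1 * N ^ k := mul_lt_mul_of_pos_right hconst hNk
      _ = N ^ k := one_mul _
  obtain ⟨ω, hω⟩ : ∃ ω : Fin k → Γ × {x // x ∈ B}, ω ∉ U1 ∪ U2 ∪ U3 := by
    by_contra hcon
    push Not at hcon
    have : (U1 ∪ U2 ∪ U3) = univ := by
      ext ω
      simp only [mem_univ, iff_true]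
      exact hcon ω
    rw [this] at hlt
    exact lt_irrefl _ hlt
  rw [mem_union, mem_union, not_or, not_or] at hω
  obtain ⟨⟨n1, n2⟩, n3⟩ := hω
  set S : Finset V := T ∪ univ.image (fun j => pt (ω j)) with hS
  have hrep : ∀ x ∈ S, ∃ i : {x // x ∈ T} ⊕ Fin k, val ω i = x := by
    intro x hx
    rw [hS, mem_union] at hx
    rcases hx with hx | hx
    · exact ⟨Sum.inl ⟨x, hx⟩, rfl⟩
    · obtain ⟨j, -, hj⟩ := mem_image.1 hx
      exact ⟨Sum.inr j, hj⟩
  refine ⟨S, ?_, ?_⟩
  · refine (card_union_le _ _).trans (Nat.add_le_add hTc ?_)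
    refine card_image_le.trans ?_
    rw [Finset.card_univ, Fintype.card_fin]
  · intro g hg1
    by_contra hcon
    push Not at hcon
    by_cases hg : g ∈ fixer Γ B
    · obtain ⟨hw1, hw2⟩ := hw g hg hg1
      have hx := hcon (w g) (mem_union_left _ (mem_union_left _ hw1))
      rw [hS, mem_union, hT, mem_union] at hx
      rcases hx with (hx | hx) | hx
      · exact hw2 (hWS hx)
      · have h1 := (mem_filter.1 hg).2 _ hx
        have h2 : g • w g = w g := smul_left_cancel g h1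
        exact hw2 (by rw [h2]; exact hWS hw1)
      · obtain ⟨j, -, hj⟩ := mem_image.1 hx
        refine n1 (mem_biUnion.2 ⟨j, mem_univ _, mem_filter.2 ⟨mem_univ _, g, hg, hg1, hj⟩⟩)
    · have hσ' : ∀ b : {x // x ∈ B}, ∃ i : {x // x ∈ T} ⊕ Fin k, val ω i = g • (b : V) :=
        fun b => hrep _ (hcon _ (mem_union_left _ (mem_union_right _ b.2)))
      choose σ hσ' using hσ'
      have hτ : ∀ j : Fin k, ∃ i : {x // x ∈ T} ⊕ Fin k, val ω i = g • pt (ω j) :=
        fun j => hrep _ (hcon _ (mem_union_right _ (mem_image_of_mem _ (mem_univ j))))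
      choose τ hτ using hτ
      by_cases hj : ∃ j : Fin k, (∀ b, σ b ≠ Sum.inr j) ∧ τ j ≠ Sum.inr j
      · obtain ⟨j, hj1, hj2⟩ := hj
        exact n2 (mem_biUnion.2 ⟨(σ, j, τ j), mem_univ _, mem_filter.2 ⟨mem_univ _, hj1, hj2, g,
          fun b => (hσ' b).symm, (hτ j).symm⟩⟩)
      · push Not at hj
        refine n3 (mem_biUnion.2 ⟨σ, mem_univ _, mem_filter.2 ⟨mem_univ _, g, hg,
          fun b => (hσ' b).symm, fun j hj' => ?_⟩⟩)
        have h1 := hτ j
        rw [hj j hj'] at h1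
        exact h1.symm

end Action

theorem exists_consts (d L : ℕ) (hd : 0 < d) (hL : 0 < L) : ∃ k M : ℕ, 0 < M ∧
    (k : ℝ) * (L * (1 / M)) +
      ((L + d + k : ℕ) : ℝ) ^ d * (k * ((L + d + k : ℕ) : ℝ)) * (L * (1 / M)) +
      ((L + d + k : ℕ) : ℝ) ^ d * (L * (1 - 1 / (L * d)) ^ (k - d)) < 1 := by
  have hLd : (1 : ℝ) ≤ L * d := by
    have : 1 ≤ L * d := Nat.mul_pos hL hd
    exact_mod_cast this
  have hr0 : (0 : ℝ) ≤ 1 - 1 / (L * d) := by
    rw [sub_nonneg, div_le_one (by linarith)]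
    exact hLd
  have hr1 : (1 : ℝ) - 1 / (L * d) < 1 := by
    have : (0 : ℝ) < 1 / (L * d) := by
      apply div_pos one_pos
      linarith
    linarith
  have h1 := tendsto_pow_const_mul_const_pow_of_abs_lt_one d
    (r := (1 : ℝ) - 1 / (L * d)) (by rw [abs_of_nonneg hr0]; exact hr1)
  have h2 := h1.const_mul (((L : ℝ) + 2 * d + 1) ^ d * L)
  rw [mul_zero] at h2
  have h3 : ∀ᶠ n : ℕ in Filter.atTop,
      ((L : ℝ) + 2 * d + 1) ^ d * L * ((n : ℝ) ^ d * (1 - 1 / (L * d)) ^ n) < 1 / 2 :=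
    h2.eventually (gt_mem_nhds (by norm_num))
  obtain ⟨n, hn, hn1⟩ := (h3.and (Filter.eventually_ge_atTop 1)).exists
  obtain ⟨M, hM⟩ := exists_nat_gt (2 * (((n + d : ℕ) : ℝ) * L +
    ((L + d + (n + d) : ℕ) : ℝ) ^ d * (((n + d : ℕ) : ℝ) * ((L + d + (n + d) : ℕ) : ℝ)) * L))
  refine ⟨n + d, M + 1, Nat.succ_pos _, ?_⟩
  have hM1 : (0 : ℝ) < ((M + 1 : ℕ) : ℝ) := by positivity
  have hM2 : (M : ℝ) < ((M + 1 : ℕ) : ℝ) := by push_cast; linarith
  have e1 : ((n + d : ℕ) : ℝ) * (L * (1 / ((M + 1 : ℕ) : ℝ))) +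
      ((L + d + (n + d) : ℕ) : ℝ) ^ d * (((n + d : ℕ) : ℝ) * ((L + d + (n + d) : ℕ) : ℝ)) *
        (L * (1 / ((M + 1 : ℕ) : ℝ))) < 1 / 2 := by
    have e2 : ((n + d : ℕ) : ℝ) * (L * (1 / ((M + 1 : ℕ) : ℝ))) +
      ((L + d + (n + d) : ℕ) : ℝ) ^ d * (((n + d : ℕ) : ℝ) * ((L + d + (n + d) : ℕ) : ℝ)) *
        (L * (1 / ((M + 1 : ℕ) : ℝ))) = (((n + d : ℕ) : ℝ) * L +
    ((L + d + (n + d) : ℕ) : ℝ) ^ d * (((n + d : ℕ) : ℝ) * ((L + d + (n + d) : ℕ) : ℝ)) * L) /
      ((M + 1 : ℕ) : ℝ) := by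
      ring
    rw [e2, div_lt_iff₀ hM1]
    linarith
  have e3 : ((L + d + (n + d) : ℕ) : ℝ) ^ d * (L * (1 - 1 / (L * d)) ^ (n + d - d)) < 1 / 2 := by
    rw [Nat.add_sub_cancel]
    refine lt_of_le_of_lt ?_ hn
    have hn1' : (1 : ℝ) ≤ n := by exact_mod_cast hn1
    have e4 : ((L + d + (n + d) : ℕ) : ℝ) ≤ ((L : ℝ) + 2 * d + 1) * n := by
      push_cast
      have : (0 : ℝ) ≤ L + 2 * d := by positivity
      nlinarith
    have e5 : ((L + d + (n + d) : ℕ) : ℝ) ^ d ≤ (((L : ℝ) + 2 * d + 1) * n) ^ d :=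
      pow_le_pow_left₀ (by positivity) e4 _
    calc ((L + d + (n + d) : ℕ) : ℝ) ^ d * (L * (1 - 1 / (L * d)) ^ n)
        ≤ (((L : ℝ) + 2 * d + 1) * n) ^ d * (L * (1 - 1 / (L * d)) ^ n) := by
          apply mul_le_mul_of_nonneg_right e5
          have := pow_nonneg hr0 n
          positivity
      _ = _ := by rw [mul_pow]; ring
  linarith

theorem fixer_le {Γ V : Type} [Group Γ] [Fintype Γ] [MulAction Γ V] (d t : ℕ) (B B₀ B₁ : Finset V)
    (hdet : ∀ g : Γ, (∀ b ∈ B, g • b = b) → g = 1) (hB : B.card ≤ d) (h0 : B₀ ⊆ B)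
    (h01 : B ⊆ B₀ ∪ B₁) (ht : ∀ b ∈ B₀, (orb Γ b).card ≤ t + 1) :
    (fixer Γ B₁).card ≤ (t + 1) ^ d := by
  have h1 : (fixer Γ B₁).card ≤
      (Fintype.piFinset (fun b : {x // x ∈ B₀} => orb Γ (b : V))).card := by
    refine Finset.card_le_card_of_injOn (fun g b => g • (b : V)) ?_ ?_
    · intro g _
      refine mem_coe.2 (Fintype.mem_piFinset.2 fun b => ?_)
      exact mem_image.2 ⟨g, mem_univ _, rfl⟩
    · intro g hg h hh hgh
      have hg' := (mem_filter.1 (mem_coe.1 hg)).2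
      have hh' := (mem_filter.1 (mem_coe.1 hh)).2
      have h2 : h⁻¹ * g = 1 := by
        apply hdet
        intro b hb
        rw [mul_smul]
        have h3 : g • b = h • b := by
          rcases mem_union.1 (h01 hb) with hb' | hb'
          · exact congrFun hgh ⟨b, hb'⟩
          · rw [hg' b hb', hh' b hb']
        rw [h3, inv_smul_smul]
      exact (inv_mul_eq_one.1 h2).symm
  refine h1.trans ?_
  rw [Fintype.card_piFinset]
  calc ∏ b : {x // x ∈ B₀}, (orb Γ (b : V)).card ≤ ∏ _b : {x // x ∈ B₀}, (t + 1) :=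
        Finset.prod_le_prod' fun b _ => ht b b.2
    _ = (t + 1) ^ B₀.card := by
        rw [Finset.prod_const, Finset.card_univ, Fintype.card_coe]
    _ ≤ (t + 1) ^ d := Nat.pow_le_pow_right (Nat.succ_pos _) ((Finset.card_le_card h0).trans hB)

theorem action_bound (d : ℕ) (hd : 0 < d) : ∃ C : ℕ, ∀ (Γ V : Type) [Group Γ] [Fintype Γ]
    [MulAction Γ V] (B S₀ : Finset V), B.card ≤ d →
    (∀ g : Γ, (∀ b ∈ B, g • b = b) → g = 1) → (∀ g : Γ, g ≠ 1 → ∃ x ∈ S₀, g • x ∉ S₀) →
    ∃ S : Finset V, S.card ≤ C ∧ ∀ g : Γ, g ≠ 1 → ∃ x ∈ S, g • x ∉ S := by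
  have hex := fun t : ℕ => exists_consts d ((t + 1) ^ d) hd (by positivity)
  choose kf Mf hMf hc using hex
  -- the thresholds
  set τ : ℕ → ℕ := fun j => Nat.rec 0 (fun _ t => t + Mf t) j with hτ
  have hτs : ∀ j, τ (j + 1) = τ j + Mf (τ j) := fun j => rfl
  have hmono : Monotone τ := monotone_nat_of_le_succ fun j => by
    rw [hτs]
    exact Nat.le_add_right _ _
  refine ⟨∑ j ∈ range (d + 1), ((τ j + 1) ^ d + d + kf (τ j)), ?_⟩
  intro Γ V _ _ _ B S₀ hB hdet hS₀
  by_cases htriv : ∀ g : Γ, g = 1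
  · exact ⟨∅, by simp, fun g hg => absurd (htriv g) hg⟩
  push Not at htriv
  obtain ⟨g₁, hg₁⟩ := htriv
  obtain ⟨x₁, -, -⟩ := hS₀ g₁ hg₁
  have : Nonempty V := ⟨x₁⟩
  choose! w hw using hS₀
  -- a good threshold
  obtain ⟨j, hj, hgood⟩ : ∃ j ∈ range (d + 1), ∀ b ∈ B,
      (orb Γ b).card ≤ τ j + 1 ∨ Mf (τ j) ≤ (orb Γ b).card := by
    by_contra hcon
    push Not at hcon
    choose! f hf1 hf2 using hcon
    have hinj : Set.InjOn f (range (d + 1)) := by
      have key : ∀ i ∈ range (d + 1), ∀ j ∈ range (d + 1), i < j → f i ≠ f j := by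
        intro i hi j hj hij he
        have h1 := (hf2 i hi).2
        have h2 := (hf2 j hj).1
        rw [he] at h1
        have h3 : Mf (τ i) ≤ τ (i + 1) := by rw [hτs]; exact Nat.le_add_left _ _
        have h4 : τ (i + 1) ≤ τ j := hmono hij
        omega
      intro i hi j hj he
      rcases lt_trichotomy i j with h | h | h
      · exact absurd he (key i hi j hj h)
      · exact h
      · exact absurd he.symm (key j hj i hi h)
    have h5 := Finset.card_le_card_of_injOn f (fun i hi => hf1 i hi) hinj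
    rw [card_range] at h5
    omega
  set L : ℕ := (τ j + 1) ^ d with hLdef
  have hL0 : 0 < L := by positivity
  have hC : L + d + kf (τ j) ≤ ∑ j ∈ range (d + 1), ((τ j + 1) ^ d + d + kf (τ j)) :=
    Finset.single_le_sum (f := fun j => (τ j + 1) ^ d + d + kf (τ j))
      (fun _ _ => Nat.zero_le _) hj
  set B₁ : Finset V := B.filter (fun b => Mf (τ j) ≤ (orb Γ b).card) with hB₁
  set B₀ : Finset V := B.filter (fun b => (orb Γ b).card ≤ τ j + 1) with hB₀
  have hfix : (fixer Γ B₁).card ≤ L := by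
    refine fixer_le d (τ j) B B₀ B₁ hdet hB (filter_subset _ _) ?_ ?_
    · intro b hb
      rw [mem_union, hB₀, hB₁, mem_filter, mem_filter]
      rcases hgood b hb with h | h
      · exact Or.inl ⟨hb, h⟩
      · exact Or.inr ⟨hb, h⟩
    · intro b hb
      exact (mem_filter.1 hb).2
  set W : Finset V := ((fixer Γ B₁).erase 1).image w with hWdef
  have hW : W.card ≤ L := card_image_le.trans ((card_le_card (erase_subset _ _)).trans hfix)
  have hWS : W ⊆ S₀ := by
    intro x hx
    obtain ⟨g, hg, rfl⟩ := mem_image.1 hx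
    exact (hw g (ne_of_mem_erase hg)).1
  have hw' : ∀ g ∈ fixer Γ B₁, g ≠ 1 → w g ∈ W ∧ g • w g ∉ S₀ := fun g hg hg1 =>
    ⟨mem_image_of_mem _ (mem_erase.2 ⟨hg1, hg⟩), (hw g hg1).2⟩
  rcases B₁.eq_empty_or_nonempty with he | hne
  · refine ⟨W, hW.trans (by omega), fun g hg1 => ?_⟩
    have hg : g ∈ fixer Γ B₁ := by
      rw [he]
      exact mem_filter.2 ⟨mem_univ _, fun b hb => absurd hb (notMem_empty b)⟩
    obtain ⟨h1, h2⟩ := hw' g hg hg1
    exact ⟨w g, h1, fun h => h2 (hWS h)⟩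
  · obtain ⟨S, hS, hS'⟩ := main_action d L (kf (τ j)) (Mf (τ j)) B₁ W S₀ w hne
      ((card_le_card (filter_subset _ _)).trans hB) hd hL0 (hMf _) hfix hW hWS hw'
      (fun b hb => (mem_filter.1 hb).2) (hc (τ j))
    exact ⟨S, hS.trans hC, hS'⟩

/-- the colouring `c` of the vertices with (at most) two colours is distinguishing: only the
identity preserves it -/
def IsDistinguishing {V : Type} (G : SimpleGraph V) (c : V → Fin 2) : Prop :=
  ∀ φ : G ≃g G, (∀ v, c (φ v) = c v) → ∀ v, φ v = v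

/-- `G` is 2-distinguishable -/
def IsTwoDistinguishable {V : Type} (G : SimpleGraph V) : Prop :=
  ∃ c : V → Fin 2, IsDistinguishing G c

/-- `S` is a determining set of `G` -/
def IsDetermining {V : Type} (G : SimpleGraph V) (S : Finset V) : Prop :=
  ∀ φ : G ≃g G, (∀ v ∈ S, φ v = v) → ∀ v, φ v = v

/-- the determining number: least size of a determining set -/
noncomputable def Det {V : Type} (G : SimpleGraph V) : ℕ :=
  sInf {n | ∃ S : Finset V, S.card = n ∧ IsDetermining G S}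

/-- `S` is a distinguishing class of `G`: a colour class of a distinguishing 2-colouring -/
def IsDistinguishingClass {V : Type} (G : SimpleGraph V) (S : Finset V) : Prop :=
  ∃ (c : V → Fin 2) (i : Fin 2), IsDistinguishing G c ∧ ∀ v, v ∈ S ↔ c v = i

/-- the cost number: least size of a distinguishing class -/
noncomputable def cost {V : Type} (G : SimpleGraph V) : ℕ :=
  sInf {n | ∃ S : Finset V, S.card = n ∧ IsDistinguishingClass G S}

/-- For every `d` there is a constant `C` such that `cost G ≤ C` for every finite 2-distinguishable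
graph `G` with determining number `d`. -/
theorem result : ∀ d : ℕ, ∃ C : ℕ, ∀ (V : Type) [Fintype V] (G : SimpleGraph V),
    IsTwoDistinguishable G → Det G = d → cost G ≤ C := by
  intro d
  obtain ⟨C, hC⟩ := action_bound (d + 1) (Nat.succ_pos d)
  refine ⟨C, fun V _ G ⟨c, hc⟩ hdet => ?_⟩
  let _ : Fintype (G ≃g G) := Fintype.ofInjective (fun φ : G ≃g G => (φ : V → V))
    (fun a b h => RelIso.coe_fn_injective h)
  have hone : ∀ g : G ≃g G, (∀ v, g v = v) → g = 1 := fun g h => RelIso.ext h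
  obtain ⟨B, hB, hBd⟩ : ∃ S : Finset V, S.card = d ∧ IsDetermining G S := by
    rw [← hdet]
    have hne : {n | ∃ S : Finset V, S.card = n ∧ IsDetermining G S}.Nonempty :=
      ⟨_, univ, rfl, fun φ h v => h v (mem_univ v)⟩
    exact Nat.sInf_mem hne
  obtain ⟨S, hS, hS'⟩ := hC (G ≃g G) V B (univ.filter (fun v => c v = 0)) (by omega)
    (fun g hg => hone g (hBd g hg)) (by
      intro g hg
      by_contra hcon
      push Not at hcon
      apply hg
      apply hone
      apply hc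
      set S₀ : Finset V := univ.filter (fun v => c v = 0) with hS₀
      have himg : S₀.image (fun v => g v) = S₀ := by
        apply Finset.eq_of_subset_of_card_le
        · intro x hx
          obtain ⟨v, hv, rfl⟩ := mem_image.1 hx
          exact hcon v hv
        · rw [Finset.card_image_of_injective _ g.injective]
      intro v
      by_cases hv : c v = 0
      · have h1 : g v ∈ S₀ := hcon v (mem_filter.2 ⟨mem_univ _, hv⟩)
        rw [hv]
        exact (mem_filter.1 h1).2
      · have h1 : c (g v) ≠ 0 := by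
          intro h
          have h2 : g v ∈ S₀ := mem_filter.2 ⟨mem_univ _, h⟩
          rw [← himg] at h2
          obtain ⟨u, hu, huv⟩ := mem_image.1 h2
          have h3 : u = v := g.injective huv
          rw [h3] at hu
          exact hv (mem_filter.1 hu).2
        have h4 : ∀ a : Fin 2, a ≠ 0 → a = 1 := by decide
        rw [h4 _ hv, h4 _ h1])
  have hclass : IsDistinguishingClass G S := by
    refine ⟨fun v => if v ∈ S then 0 else 1, 0, ?_, ?_⟩
    · intro φ hφ
      by_contra hcon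
      have hne : φ ≠ 1 := by
        rintro rfl
        exact hcon fun v => rfl
      obtain ⟨x, hx, hx'⟩ := hS' φ hne
      have h1 : (if φ x ∈ S then (0 : Fin 2) else 1) = if x ∈ S then 0 else 1 := hφ x
      have hx'' : φ x ∉ S := hx'
      rw [if_pos hx, if_neg hx''] at h1
      exact absurd h1 (by decide)
    · intro v
      by_cases hv : v ∈ S
      · simp [hv]
      · simp [hv]
  have hmem : S.card ∈ {n | ∃ S : Finset V, S.card = n ∧ IsDistinguishingClass G S} :=
    ⟨S, rfl, hclass⟩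
  exact (Nat.sInf_le hmem).trans hS

end Pool.Agent.Results.MP_ff3c98_co.CostBounded
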